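import Mathlib
import Pool.Agent.L0h74.S4.B
import Pool.Agent.L0h74.S4.F

set_option autoImplicit false

/-!
The distribution of the number of prime factors `p ≡ 3 mod 4` with `(p/7) = 1` minus the number of
those with `(p/7) = -1`: among the square-free `D ≡ 1 mod 4` prime to `7`, asymptotically half have
difference at least `M`, for every fixed `M`.
-/

namespace Pool.Agent.L0h74.S4

open Finset Filter
open scoped Topology

lemma SS_zero (X : ℕ) : SS X 0 = ((GS X).card : ℂ) := by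
  unfold SS
  simp

theorem char_lim (t : ℝ) : Tendsto (fun X : ℕ => ((GS X).card : ℂ)⁻¹ * SS X (th t X)) atTop
    (𝓝 (Complex.exp (-((t : ℂ) ^ 2 / 2)))) := by
  have h1 := main_lim t
  have h0 : Tendsto (fun X : ℕ => ((GS X).card : ℂ) / X - 3 / 14 * KK (yy X)) atTop (𝓝 0) := by
    have h := main_lim 0
    refine h.congr (fun X => ?_)
    have e1 : th 0 X = 0 := by simp [th]
    rw [e1, SS_zero]
    simp
  set E : ℂ := Complex.exp (-((t : ℂ) ^ 2 / 2)) with hE
  have h2 : Tendsto (fun X : ℕ => SS X (th t X) / X - ((GS X).card : ℂ) / X * E) atTop (𝓝 0) := by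
    have h := h1.sub (h0.mul_const E)
    rw [zero_mul, sub_zero] at h
    refine h.congr (fun X => ?_)
    ring
  have hlow : ∀ᶠ X : ℕ in atTop, 3 / 56 ≤ ((GS X).card : ℝ) / X ∧ 1 ≤ X := by
    have h3 : ∀ᶠ X : ℕ in atTop, ‖((GS X).card : ℂ) / X - 3 / 14 * KK (yy X)‖ < 3 / 56 := by
      have := (tendsto_zero_iff_norm_tendsto_zero.1 h0).eventually_lt_const
        (show (0 : ℝ) < 3 / 56 by norm_num)
      exact this
    filter_upwards [h3, props] with X hX hp
    refine ⟨?_, hp.1⟩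
    have k1 := KK_ge (yy X) (by omega)
    have e : ((GS X).card : ℂ) / X - 3 / 14 * KK (yy X) =
        ((((GS X).card : ℝ) / X - 3 / 14 * KK (yy X) : ℝ) : ℂ) := by push_cast; rfl
    rw [e, Complex.norm_real, Real.norm_eq_abs, abs_lt] at hX
    linarith [hX.1]
  rw [tendsto_iff_norm_sub_tendsto_zero]
  rw [tendsto_zero_iff_norm_tendsto_zero] at h2
  have h4 := h2.mul_const (56 / 3)
  rw [zero_mul] at h4
  refine squeeze_zero' (Eventually.of_forall fun _ => norm_nonneg _) ?_ h4
  filter_upwards [hlow] with X hX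
  obtain ⟨hX1, hX2⟩ := hX
  have hX0 : (0 : ℝ) < X := by exact_mod_cast hX2
  have hc : (0 : ℝ) < (GS X).card := by
    have : 0 < ((GS X).card : ℝ) / X := by linarith
    rcases lt_or_ge 0 ((GS X).card : ℝ) with h | h
    · exact h
    · exfalso
      have := div_nonpos_of_nonpos_of_nonneg h hX0.le
      linarith
  have hXc : (X : ℂ) ≠ 0 := by exact_mod_cast hX0.ne'
  have hcc : ((GS X).card : ℂ) ≠ 0 := by exact_mod_cast hc.ne'
  have e1 : ((GS X).card : ℂ)⁻¹ * SS X (th t X) - E =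
      (SS X (th t X) / X - ((GS X).card : ℂ) / X * E) * ((X : ℂ) / (GS X).card) := by
    field_simp
  rw [e1, norm_mul]
  apply mul_le_mul_of_nonneg_left _ (norm_nonneg _)
  rw [norm_div, Complex.norm_natCast, Complex.norm_natCast]
  rw [div_le_iff₀ hc]
  rw [le_div_iff₀ hX0] at hX1
  linarith

lemma mm_eq (D : ℕ) : mm D =
    ((D.primeFactors.filter fun p => p % 4 = 3 ∧ (p % 7 = 1 ∨ p % 7 = 2 ∨ p % 7 = 4)).card : ℤ) -
    ((D.primeFactors.filter fun p => p % 4 = 3 ∧ (p % 7 = 3 ∨ p % 7 = 5 ∨ p % 7 = 6)).card : ℤ) := by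
  unfold mm
  rw [Finset.card_filter, Finset.card_filter]
  push_cast
  rw [← Finset.sum_sub_distrib]
  apply Finset.sum_congr rfl
  intro p _
  unfold fp
  split_ifs with h1 h2 h3
  · omega
  · norm_num
  · norm_num
  · norm_num

lemma one_mem_GS (X : ℕ) : 1 ∈ GS (X + 1) := by
  simp [GS]

theorem half_lim (M : ℕ) : Tendsto (fun X : ℕ => (((GS X).filter (fun D => (M : ℤ) ≤ mm D)).card : ℝ) /
    (GS X).card) atTop (𝓝 (1 / 2)) := by
  rw [← tendsto_add_atTop_iff_nat 1]
  have h := levy_half (fun n => GS (n + 1)) (fun n => ⟨1, one_mem_GS n⟩)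
    (fun n D => ((mm D : ℝ) - M) / Real.sqrt (LL (n + 1) / 2)) (by
      intro t
      have h1 := (char_lim t).comp (tendsto_add_atTop_nat 1)
      have h2 : Tendsto (fun n : ℕ => Complex.exp (((-(th t (n + 1) * M) : ℝ) : ℂ) * Complex.I)) atTop
          (𝓝 (Complex.exp (((-(0 * (M : ℝ)) : ℝ) : ℂ) * Complex.I))) := by
        have h3 : Tendsto (fun n : ℕ => (-(th t (n + 1) * M) : ℝ)) atTop (𝓝 (-(0 * (M : ℝ)))) :=
          (((tendsto_th t).comp (tendsto_add_atTop_nat 1)).mul_const _).neg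
        exact (Complex.continuous_exp.tendsto _).comp
          (((Complex.continuous_ofReal.tendsto _).comp h3).mul_const _)
      have h4 := h1.mul h2
      have e0 : Complex.exp (((-(0 * (M : ℝ)) : ℝ) : ℂ) * Complex.I) = 1 := by simp
      rw [e0, mul_one] at h4
      refine h4.congr (fun n => ?_)
      simp only [Function.comp, SS]
      rw [mul_assoc, Finset.sum_mul]
      congr 1
      apply Finset.sum_congr rfl
      intro D _
      rw [← Complex.exp_add]
      congr 1
      unfold th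
      push_cast
      ring)
  refine h.congr' ?_
  have hLL := tendsto_LL.comp (tendsto_add_atTop_nat 1)
  filter_upwards [hLL.eventually_gt_atTop 0] with n hn
  simp only [Function.comp] at hn
  congr 3
  apply Finset.filter_congr
  intro D _
  have hs : 0 < Real.sqrt (LL (n + 1) / 2) := Real.sqrt_pos.2 (by linarith)
  rw [le_div_iff₀ hs, zero_mul, sub_nonneg]
  constructor
  · intro h; exact_mod_cast h
  · intro h; exact_mod_cast h

/-- Among the square-free `D ≡ 1 mod 4` prime to `7`, asymptotically half have at least `M` more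
prime factors `p ≡ 3 mod 4` that are squares modulo `7` than prime factors `p ≡ 3 mod 4` that are
nonsquares modulo `7`. -/
theorem S4 (M : ℕ) : Tendsto (fun X : ℕ =>
    (((Finset.Icc 1 X).filter fun D => Squarefree D ∧ D % 4 = 1 ∧ D % 7 ≠ 0 ∧
      (D.primeFactors.filter fun p => p % 4 = 3 ∧ (p % 7 = 3 ∨ p % 7 = 5 ∨ p % 7 = 6)).card + M ≤
      (D.primeFactors.filter fun p => p % 4 = 3 ∧ (p % 7 = 1 ∨ p % 7 = 2 ∨ p % 7 = 4)).card).card : ℝ) /
    (((Finset.Icc 1 X).filter fun D => Squarefree D ∧ D % 4 = 1 ∧ D % 7 ≠ 0).card : ℝ))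
    atTop (nhds (1/2)) := by
  refine (half_lim M).congr (fun X => ?_)
  have e : (GS X).filter (fun D => (M : ℤ) ≤ mm D) =
      (Finset.Icc 1 X).filter fun D => Squarefree D ∧ D % 4 = 1 ∧ D % 7 ≠ 0 ∧
      (D.primeFactors.filter fun p => p % 4 = 3 ∧ (p % 7 = 3 ∨ p % 7 = 5 ∨ p % 7 = 6)).card + M ≤
      (D.primeFactors.filter fun p => p % 4 = 3 ∧ (p % 7 = 1 ∨ p % 7 = 2 ∨ p % 7 = 4)).card := by
    ext D
    simp only [GS, Finset.mem_filter, mm_eq]
    constructor
    · rintro ⟨⟨h1, h2, h3, h4⟩, h5⟩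
      exact ⟨h1, h2, h3, h4, by omega⟩
    · rintro ⟨h1, h2, h3, h4, h5⟩
      exact ⟨⟨h1, h2, h3, h4⟩, by omega⟩
  rw [e]
  rfl

end Pool.Agent.L0h74.S4
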