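import Mathlib

set_option autoImplicit false

/-!
Finite Fourier analysis used for `MP_eaae5b_nt`.
-/

namespace Pool.Agent.L0h74.ET

open Finset Complex

noncomputable section

/-- a primitive `q`-th root of unity -/
def zt (q : ℕ) : ℂ := Complex.exp (2 * Real.pi * Complex.I / q)

lemma zt_prim {q : ℕ} (hq : q ≠ 0) : IsPrimitiveRoot (zt q) q := Complex.isPrimitiveRoot_exp q hq

lemma norm_zt {q : ℕ} (hq : q ≠ 0) : ‖zt q‖ = 1 := (zt_prim hq).norm'_eq_one hq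

lemma zt_ne {q : ℕ} (hq : q ≠ 0) : zt q ≠ 0 := by
  intro h
  have := norm_zt hq
  rw [h, norm_zero] at this
  norm_num at this

lemma conj_pow {q : ℕ} (hq : q ≠ 0) (k : ℕ) : (starRingEnd ℂ) (zt q ^ k) = (zt q ^ k)⁻¹ := by
  have h : ‖zt q ^ k‖ = 1 := by rw [norm_pow, norm_zt hq, one_pow]
  rw [Complex.inv_def, Complex.normSq_eq_norm_sq, h]
  simp

lemma orth {q : ℕ} (hq : q ≠ 0) {n m : ℕ} (hn : n < q) (hm : m < q) :
    ∑ k ∈ range q, (zt q ^ n * (zt q ^ m)⁻¹) ^ k = if n = m then (q : ℂ) else 0 := by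
  by_cases h : n = m
  · subst h
    rw [if_pos rfl, mul_inv_cancel₀ (pow_ne_zero _ (zt_ne hq))]
    simp
  · rw [if_neg h]
    have hx : zt q ^ n * (zt q ^ m)⁻¹ ≠ 1 := by
      intro hx
      have h1 : zt q ^ n = zt q ^ m := by
        rwa [mul_inv_eq_one₀ (pow_ne_zero _ (zt_ne hq))] at hx
      exact h ((zt_prim hq).pow_inj hn hm h1)
    rw [geom_sum_eq hx]
    have h2 : (zt q ^ n * (zt q ^ m)⁻¹) ^ q = 1 := by
      rw [mul_pow, inv_pow, ← pow_mul, ← pow_mul, mul_comm n, mul_comm m, pow_mul, pow_mul,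
        (zt_prim hq).pow_eq_one]
      simp
    rw [h2]
    simp

lemma parseval {q : ℕ} (hq : q ≠ 0) (f : ℕ → ℝ) :
    ∑ k ∈ range q, ‖∑ n ∈ range q, (f n : ℂ) * (zt q ^ k) ^ n‖ ^ 2 =
      q * ∑ n ∈ range q, f n ^ 2 := by
  have key : ((∑ k ∈ range q, ‖∑ n ∈ range q, (f n : ℂ) * (zt q ^ k) ^ n‖ ^ 2 : ℝ) : ℂ) =
      ((q * ∑ n ∈ range q, f n ^ 2 : ℝ) : ℂ) := by
    push_cast
    have h1 : ∀ k ∈ range q, ((‖∑ n ∈ range q, (f n : ℂ) * (zt q ^ k) ^ n‖ : ℂ)) ^ 2 =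
        ∑ n ∈ range q, ∑ m ∈ range q, (f n : ℂ) * (f m : ℂ) * (zt q ^ n * (zt q ^ m)⁻¹) ^ k := by
      intro k _
      rw [← Complex.mul_conj', map_sum, Finset.sum_mul_sum]
      apply Finset.sum_congr rfl
      intro n _
      apply Finset.sum_congr rfl
      intro m _
      rw [map_mul, Complex.conj_ofReal, ← pow_mul (zt q) k m, conj_pow hq, mul_pow, inv_pow,
        ← pow_mul, ← pow_mul, ← pow_mul, mul_comm k m, mul_comm k n]
      ring
    rw [Finset.sum_congr rfl h1, Finset.sum_comm, Finset.mul_sum]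
    apply Finset.sum_congr rfl
    intro n hn
    rw [Finset.sum_comm]
    have h2 : ∀ m ∈ range q, ∑ k ∈ range q, (f n : ℂ) * (f m : ℂ) * (zt q ^ n * (zt q ^ m)⁻¹) ^ k =
        if n = m then (q : ℂ) * (f n : ℂ) ^ 2 else 0 := by
      intro m hm
      rw [← Finset.mul_sum, orth hq (mem_range.1 hn) (mem_range.1 hm)]
      by_cases h : n = m
      · subst h; simp; ring
      · simp [h]
    rw [Finset.sum_congr rfl h2, Finset.sum_ite_eq, if_pos hn]
  exact_mod_cast key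

end

end Pool.Agent.L0h74.ET
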