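import Mathlib
import Pool.Agent.L0h74.ET1

set_option autoImplicit false

/-!
The `L¹`-`L²` inequality used for `MP_eaae5b_nt`.
-/

namespace Pool.Agent.L0h74.ET

open Finset Complex

noncomputable section

lemma norm_pow_sub_one (z : ℂ) (hz : ‖z‖ = 1) (n : ℕ) : ‖z ^ n - 1‖ ≤ n * ‖z - 1‖ := by
  induction n with
  | zero => simp
  | succ n ih =>
    have h : z ^ (n + 1) - 1 = z ^ n * (z - 1) + (z ^ n - 1) := by ring
    rw [h]
    refine (norm_add_le _ _).trans ?_
    rw [norm_mul, norm_pow, hz, one_pow]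
    push_cast
    linarith

lemma sum_norm_le {q : ℕ} (g : ℕ → ℂ) (s : Finset ℕ) (hs : s ⊆ range q) :
    ∑ k ∈ s, ‖g k‖ ≤ Real.sqrt s.card * Real.sqrt (∑ k ∈ range q, ‖g k‖ ^ 2) := by
  have h1 : (∑ k ∈ s, ‖g k‖) ^ 2 ≤ s.card * ∑ k ∈ s, ‖g k‖ ^ 2 :=
    sq_sum_le_card_mul_sum_sq
  have h2 : ∑ k ∈ s, ‖g k‖ ^ 2 ≤ ∑ k ∈ range q, ‖g k‖ ^ 2 :=
    Finset.sum_le_sum_of_subset_of_nonneg hs (fun _ _ _ => by positivity)
  have h3 : (∑ k ∈ s, ‖g k‖) ^ 2 ≤ s.card * ∑ k ∈ range q, ‖g k‖ ^ 2 :=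
    h1.trans (mul_le_mul_of_nonneg_left h2 (by positivity))
  rw [← Real.sqrt_mul (by positivity)]
  exact Real.le_sqrt_of_sq_le h3

/-- the number of `k` with `ζ^k` close to `1` -/
lemma bad_card {q M : ℕ} (hM : 0 < M) (hMq : M ≤ q) :
    ((((range q).filter (fun k => ‖1 - zt q ^ k‖ < 1 / (2 * M))).card : ℕ) : ℝ) ≤ 4 * q / M := by
  classical
  have hq : q ≠ 0 := by omega
  set s := (range q).filter (fun k => ‖1 - zt q ^ k‖ < 1 / (2 * (M : ℝ))) with hs
  have hp := parseval hq (fun n => if n < M then 1 else 0)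
  have h1 : ∑ n ∈ range q, (if n < M then (1 : ℝ) else 0) ^ 2 = M := by
    have : ∀ n ∈ range q, (if n < M then (1 : ℝ) else 0) ^ 2 = if n ∈ range M then 1 else 0 := by
      intro n _
      by_cases h : n < M <;> simp [h]
    rw [Finset.sum_congr rfl this, Finset.sum_ite_mem,
      Finset.inter_eq_right.2 (Finset.range_subset_range.2 hMq)]
    simp
  rw [h1] at hp
  have hM0 : (0 : ℝ) < M := by exact_mod_cast hM
  have h2 : ∀ k ∈ s, ((M : ℝ) / 2) ^ 2 ≤
      ‖∑ n ∈ range q, ((if n < M then (1 : ℝ) else 0 : ℝ) : ℂ) * (zt q ^ k) ^ n‖ ^ 2 := by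
    intro k hk
    rw [hs, mem_filter] at hk
    have hz : ‖zt q ^ k‖ = 1 := by rw [norm_pow, norm_zt hq, one_pow]
    have e1 : ∑ n ∈ range q, ((if n < M then (1 : ℝ) else 0 : ℝ) : ℂ) * (zt q ^ k) ^ n =
        ∑ n ∈ range M, (zt q ^ k) ^ n := by
      have : ∀ n ∈ range q, ((if n < M then (1 : ℝ) else 0 : ℝ) : ℂ) * (zt q ^ k) ^ n =
          if n ∈ range M then (zt q ^ k) ^ n else 0 := by
        intro n _
        by_cases h : n < M <;> simp [h]
      rw [Finset.sum_congr rfl this, Finset.sum_ite_mem,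
        Finset.inter_eq_right.2 (Finset.range_subset_range.2 hMq)]
    rw [e1]
    apply pow_le_pow_left₀ (by positivity)
    have h3 : ‖∑ n ∈ range M, (zt q ^ k) ^ n - M‖ ≤ M / 2 := by
      have e2 : ∑ n ∈ range M, (zt q ^ k) ^ n - (M : ℂ) = ∑ n ∈ range M, ((zt q ^ k) ^ n - 1) := by
        rw [Finset.sum_sub_distrib]
        simp
      rw [e2]
      refine (norm_sum_le _ _).trans ?_
      have h4 : ∀ n ∈ range M, ‖(zt q ^ k) ^ n - 1‖ ≤ 1 / 2 := by
        intro n hn
        refine (norm_pow_sub_one _ hz n).trans ?_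
        have h5 : ‖zt q ^ k - 1‖ ≤ 1 / (2 * M) := by
          rw [norm_sub_rev]
          exact hk.2.le
        have h6 : (n : ℝ) ≤ M := by exact_mod_cast (mem_range.1 hn).le
        calc (n : ℝ) * ‖zt q ^ k - 1‖ ≤ M * (1 / (2 * M)) :=
              mul_le_mul h6 h5 (norm_nonneg _) hM0.le
          _ = 1 / 2 := by field_simp
      refine (Finset.sum_le_sum h4).trans ?_
      rw [Finset.sum_const, card_range, nsmul_eq_mul]
      linarith
    have h7 : ‖(M : ℂ)‖ = M := by simp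
    have h8 : ‖(M : ℂ)‖ ≤ ‖∑ n ∈ range M, (zt q ^ k) ^ n‖ +
        ‖∑ n ∈ range M, (zt q ^ k) ^ n - (M : ℂ)‖ := by
      have := norm_sub_le (∑ n ∈ range M, (zt q ^ k) ^ n)
        (∑ n ∈ range M, (zt q ^ k) ^ n - (M : ℂ))
      simpa using this
    rw [h7] at h8
    linarith
  have h9 : (s.card : ℝ) * ((M : ℝ) / 2) ^ 2 ≤ q * M := by
    rw [← hp]
    calc (s.card : ℝ) * ((M : ℝ) / 2) ^ 2 = ∑ k ∈ s, ((M : ℝ) / 2) ^ 2 := by
          rw [Finset.sum_const, nsmul_eq_mul]
      _ ≤ ∑ k ∈ s, ‖∑ n ∈ range q, ((if n < M then (1 : ℝ) else 0 : ℝ) : ℂ) * (zt q ^ k) ^ n‖ ^ 2 :=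
          Finset.sum_le_sum h2
      _ ≤ _ := Finset.sum_le_sum_of_subset_of_nonneg (Finset.filter_subset _ _)
          (fun _ _ _ => by positivity)
  rw [le_div_iff₀ hM0]
  have h10 : (s.card : ℝ) * ((M : ℝ) / 2) ^ 2 = (s.card * M) * M / 4 := by ring
  rw [h10] at h9
  have h11 : (s.card * M : ℝ) * M ≤ (4 * q) * M := by linarith
  exact le_of_mul_le_mul_right h11 hM0

/-- the geometric sum has a small `L¹` norm -/
lemma geom_L1 {q M X : ℕ} (hM : 0 < M) (hMq : M ≤ q) (hXq : X < q) {t : ℝ} (ht0 : 0 ≤ t)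
    (ht1 : t < 1) :
    ∑ k ∈ range q, ‖∑ n ∈ range (X + 1), ((t ^ n : ℝ) : ℂ) * (zt q ^ k) ^ n‖ ≤
      q * (8 * M + 2 / Real.sqrt (M * (1 - t ^ 2))) := by
  classical
  have hq : q ≠ 0 := by omega
  have hM0 : (0 : ℝ) < M := by exact_mod_cast hM
  have hq0 : (0 : ℝ) < q := by positivity
  set s := (range q).filter (fun k => ‖1 - zt q ^ k‖ < 1 / (2 * (M : ℝ))) with hs
  set H : ℕ → ℂ := fun k => ∑ n ∈ range (X + 1), ((t ^ n : ℝ) : ℂ) * (zt q ^ k) ^ n with hH
  have ht2 : 0 < 1 - t ^ 2 := by nlinarith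
  -- the second moment
  have hH2 : ∑ k ∈ range q, ‖H k‖ ^ 2 ≤ q * (1 / (1 - t ^ 2)) := by
    have hp := parseval hq (fun n => if n < X + 1 then t ^ n else 0)
    have e1 : ∀ k, ∑ n ∈ range q, ((if n < X + 1 then t ^ n else 0 : ℝ) : ℂ) * (zt q ^ k) ^ n =
        H k := by
      intro k
      have : ∀ n ∈ range q, ((if n < X + 1 then t ^ n else 0 : ℝ) : ℂ) * (zt q ^ k) ^ n =
          if n ∈ range (X + 1) then ((t ^ n : ℝ) : ℂ) * (zt q ^ k) ^ n else 0 := by
        intro n _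
        by_cases h : n < X + 1
        · rw [if_pos h, if_pos (mem_range.2 h)]
        · rw [if_neg h, if_neg (by rw [mem_range]; exact h)]; simp
      rw [Finset.sum_congr rfl this, Finset.sum_ite_mem,
        Finset.inter_eq_right.2 (Finset.range_subset_range.2 hXq)]
    simp only [e1] at hp
    rw [hp]
    apply mul_le_mul_of_nonneg_left _ hq0.le
    have e2 : ∑ n ∈ range q, (if n < X + 1 then t ^ n else 0) ^ 2 =
        ∑ n ∈ range (X + 1), (t ^ 2) ^ n := by
      have : ∀ n ∈ range q, (if n < X + 1 then t ^ n else 0) ^ 2 =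
          if n ∈ range (X + 1) then (t ^ 2) ^ n else 0 := by
        intro n _
        by_cases h : n < X + 1
        · rw [if_pos h, if_pos (mem_range.2 h), ← pow_mul, ← pow_mul, mul_comm]
        · rw [if_neg h, if_neg (by rw [mem_range]; exact h)]; simp
      rw [Finset.sum_congr rfl this, Finset.sum_ite_mem,
        Finset.inter_eq_right.2 (Finset.range_subset_range.2 hXq)]
    rw [e2, geom_sum_eq (by nlinarith : t ^ 2 ≠ 1)]
    have e3 : ((t ^ 2) ^ (X + 1) - 1) / (t ^ 2 - 1) = (1 - (t ^ 2) ^ (X + 1)) / (1 - t ^ 2) := by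
      rw [← neg_div_neg_eq]; ring
    rw [e3]
    apply div_le_div_of_nonneg_right _ ht2.le
    have : 0 ≤ (t ^ 2) ^ (X + 1) := by positivity
    linarith
  -- bad part
  have hbad : ∑ k ∈ s, ‖H k‖ ≤ q * (2 / Real.sqrt (M * (1 - t ^ 2))) := by
    refine (sum_norm_le (q := q) H s (Finset.filter_subset _ _)).trans ?_
    have h1 := bad_card hM hMq
    rw [← hs] at h1
    calc Real.sqrt s.card * Real.sqrt (∑ k ∈ range q, ‖H k‖ ^ 2)
        ≤ Real.sqrt (4 * q / M) * Real.sqrt (q * (1 / (1 - t ^ 2))) :=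
          mul_le_mul (Real.sqrt_le_sqrt h1) (Real.sqrt_le_sqrt hH2) (Real.sqrt_nonneg _)
            (Real.sqrt_nonneg _)
      _ = Real.sqrt ((2 * q) ^ 2 * (1 / (M * (1 - t ^ 2)))) := by
          rw [← Real.sqrt_mul (by positivity)]
          congr 1
          field_simp
          ring
      _ = 2 * q * Real.sqrt (1 / (M * (1 - t ^ 2))) := by
          rw [Real.sqrt_mul (by positivity), Real.sqrt_sq (by positivity)]
      _ = q * (2 / Real.sqrt (M * (1 - t ^ 2))) := by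
          rw [Real.sqrt_div (by norm_num), Real.sqrt_one]
          ring
  -- good part
  have hgood : ∑ k ∈ range q \ s, ‖H k‖ ≤ q * (8 * M) := by
    have h1 : ∀ k ∈ range q \ s, ‖H k‖ ≤ 8 * M := by
      intro k hk
      rw [mem_sdiff, hs, mem_filter, not_and, not_lt] at hk
      have h2 := hk.2 hk.1
      set z := zt q ^ k with hz
      have hzn : ‖z‖ = 1 := by rw [hz, norm_pow, norm_zt hq, one_pow]
      have e1 : H k = ∑ n ∈ range (X + 1), ((t : ℂ) * z) ^ n := by
        simp only [hH]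
        apply Finset.sum_congr rfl
        intro n _
        rw [mul_pow]
        push_cast
        rfl
      have htz : ‖(t : ℂ) * z‖ = t := by
        rw [norm_mul, hzn, mul_one, Complex.norm_real, Real.norm_of_nonneg ht0]
      have h3 : 1 - t ≤ ‖1 - (t : ℂ) * z‖ := by
        have := norm_sub_norm_le (1 : ℂ) ((t : ℂ) * z)
        rwa [norm_one, htz] at this
      have h4 : ‖1 - z‖ ≤ 2 * ‖1 - (t : ℂ) * z‖ := by
        have e2 : 1 - z = (1 - (t : ℂ) * z) - ((1 - t : ℝ) : ℂ) * z := by push_cast; ring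
        rw [e2]
        refine (norm_sub_le _ _).trans ?_
        rw [norm_mul, hzn, mul_one, Complex.norm_real, Real.norm_of_nonneg (by linarith)]
        linarith
      have h5 : 1 / (4 * (M : ℝ)) ≤ ‖1 - (t : ℂ) * z‖ := by
        have e3 : 1 / (4 * (M : ℝ)) = (1 / (2 * M)) / 2 := by field_simp; norm_num
        rw [e3]
        linarith
      have h6 : (t : ℂ) * z ≠ 1 := by
        intro h
        rw [h, sub_self, norm_zero] at h5
        have : 0 < 1 / (4 * (M : ℝ)) := by positivity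
        linarith
      rw [e1, geom_sum_eq h6, norm_div]
      have h7 : ‖((t : ℂ) * z) ^ (X + 1) - 1‖ ≤ 2 := by
        refine (norm_sub_le _ _).trans ?_
        rw [norm_pow, htz, norm_one]
        have : t ^ (X + 1) ≤ 1 := pow_le_one₀ ht0 ht1.le
        linarith
      rw [norm_sub_rev ((t : ℂ) * z) 1]
      calc ‖((t : ℂ) * z) ^ (X + 1) - 1‖ / ‖1 - (t : ℂ) * z‖
          ≤ 2 / (1 / (4 * (M : ℝ))) := by
            apply div_le_div₀ (by norm_num) h7 (by positivity) h5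
        _ = 8 * M := by field_simp; norm_num
    refine (Finset.sum_le_sum h1).trans ?_
    rw [Finset.sum_const, nsmul_eq_mul]
    apply mul_le_mul_of_nonneg_right _ (by positivity)
    have : (range q \ s).card ≤ q := by
      refine (Finset.card_le_card Finset.sdiff_subset).trans ?_
      rw [card_range]
    exact_mod_cast this
  have hsplit : ∑ k ∈ range q, ‖H k‖ = ∑ k ∈ range q \ s, ‖H k‖ + ∑ k ∈ s, ‖H k‖ :=
    (Finset.sum_sdiff (Finset.filter_subset _ _)).symm
  have : ∑ k ∈ range q, ‖H k‖ ≤ q * (8 * M + 2 / Real.sqrt (M * (1 - t ^ 2))) := by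
    rw [hsplit, mul_add]
    linarith
  exact this

end

end Pool.Agent.L0h74.ET
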