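import Mathlib
import Pool.Agent.L0h74.ET2

set_option autoImplicit false

/-!
The master inequality (finite form) used for `MP_eaae5b_nt`.
-/

namespace Pool.Agent.L0h74.ET

open Finset Complex

noncomputable section

open Classical in
/-- the number of ordered representations `n = a₁ + a₂` with `a₁, a₂ ∈ A` -/
def rep (A : Set ℕ) (n : ℕ) : ℕ :=
  ((antidiagonal n).filter (fun p => p.1 ∈ A ∧ p.2 ∈ A)).card

open Classical in
/-- indicator -/
def ind (A : Set ℕ) (a : ℕ) : ℝ := if a ∈ A then 1 else 0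

lemma ind_nonneg (A : Set ℕ) (a : ℕ) : 0 ≤ ind A a := by unfold ind; split <;> norm_num

lemma ind_le_one (A : Set ℕ) (a : ℕ) : ind A a ≤ 1 := by unfold ind; split <;> norm_num

lemma ind_sq (A : Set ℕ) (a : ℕ) : ind A a ^ 2 = ind A a := by unfold ind; split <;> norm_num

lemma rep_eq (A : Set ℕ) (n : ℕ) :
    (rep A n : ℝ) = ∑ p ∈ antidiagonal n, ind A p.1 * ind A p.2 := by
  classical
  unfold rep ind
  rw [Finset.card_filter]
  push_cast
  apply Finset.sum_congr rfl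
  intro p _
  by_cases h1 : p.1 ∈ A <;> by_cases h2 : p.2 ∈ A <;> simp [h1, h2]

/-- the truncated weights -/
def fw (A : Set ℕ) (X : ℕ) (t : ℝ) (a : ℕ) : ℝ := if a < X + 1 then ind A a * t ^ a else 0

/-- coefficients of the square -/
def gw (A : Set ℕ) (X : ℕ) (t : ℝ) (n : ℕ) : ℝ :=
  ∑ p ∈ antidiagonal n, fw A X t p.1 * fw A X t p.2

lemma fw_nonneg (A : Set ℕ) (X : ℕ) {t : ℝ} (ht : 0 ≤ t) (a : ℕ) : 0 ≤ fw A X t a := by
  unfold fw
  split
  · exact mul_nonneg (ind_nonneg _ _) (pow_nonneg ht _)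
  · exact le_rfl

lemma fw_le (A : Set ℕ) (X : ℕ) {t : ℝ} (ht : 0 ≤ t) (a : ℕ) : fw A X t a ≤ ind A a * t ^ a := by
  unfold fw
  split
  · exact le_rfl
  · exact mul_nonneg (ind_nonneg _ _) (pow_nonneg ht _)

lemma gw_nonneg (A : Set ℕ) (X : ℕ) {t : ℝ} (ht : 0 ≤ t) (n : ℕ) : 0 ≤ gw A X t n :=
  Finset.sum_nonneg (fun _ _ => mul_nonneg (fw_nonneg A X ht _) (fw_nonneg A X ht _))

lemma gw_le (A : Set ℕ) (X : ℕ) {t : ℝ} (ht : 0 ≤ t) (n : ℕ) : gw A X t n ≤ rep A n * t ^ n := by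
  rw [rep_eq, Finset.sum_mul]
  unfold gw
  apply Finset.sum_le_sum
  intro p hp
  rw [HasAntidiagonal.mem_antidiagonal] at hp
  calc fw A X t p.1 * fw A X t p.2 ≤ (ind A p.1 * t ^ p.1) * (ind A p.2 * t ^ p.2) :=
        mul_le_mul (fw_le A X ht _) (fw_le A X ht _) (fw_nonneg A X ht _)
          (mul_nonneg (ind_nonneg _ _) (pow_nonneg ht _))
    _ = ind A p.1 * ind A p.2 * t ^ n := by rw [← hp, pow_add]; ring

lemma gw_eq (A : Set ℕ) (X : ℕ) (t : ℝ) {n : ℕ} (hn : n < X + 1) :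
    gw A X t n = rep A n * t ^ n := by
  rw [rep_eq, Finset.sum_mul]
  unfold gw
  apply Finset.sum_congr rfl
  intro p hp
  rw [HasAntidiagonal.mem_antidiagonal] at hp
  unfold fw
  rw [if_pos (by omega), if_pos (by omega), ← hp, pow_add]
  ring

/-- the polynomial -/
def pol (A : Set ℕ) (X : ℕ) (t : ℝ) : Polynomial ℝ :=
  ∑ a ∈ range (X + 1), Polynomial.C (ind A a * t ^ a) * Polynomial.X ^ a

lemma pol_coeff (A : Set ℕ) (X : ℕ) (t : ℝ) (n : ℕ) : (pol A X t).coeff n = fw A X t n := by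
  unfold pol fw
  rw [Polynomial.finsetSum_coeff]
  simp only [Polynomial.coeff_C_mul_X_pow]
  rw [Finset.sum_ite_eq]
  simp only [mem_range]

lemma pol_natDegree (A : Set ℕ) (X : ℕ) (t : ℝ) : (pol A X t).natDegree ≤ X := by
  apply Polynomial.natDegree_le_iff_coeff_eq_zero.2
  intro n hn
  rw [pol_coeff]
  unfold fw
  rw [if_neg (by omega)]

lemma pol_sq_coeff (A : Set ℕ) (X : ℕ) (t : ℝ) (n : ℕ) :
    (pol A X t * pol A X t).coeff n = gw A X t n := by
  rw [Polynomial.coeff_mul]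
  unfold gw
  apply Finset.sum_congr rfl
  intro p _
  rw [pol_coeff, pol_coeff]

lemma pol_eval (A : Set ℕ) (X q : ℕ) (hq : X < q) (t : ℝ) (z : ℂ) :
    Polynomial.aeval z (pol A X t) = ∑ n ∈ range q, (fw A X t n : ℂ) * z ^ n := by
  rw [Polynomial.aeval_eq_sum_range' (lt_of_le_of_lt (pol_natDegree A X t) hq)]
  apply Finset.sum_congr rfl
  intro n _
  rw [pol_coeff, Complex.real_smul]

lemma sq_eval (A : Set ℕ) (X q : ℕ) (hq : 2 * X < q) (t : ℝ) (z : ℂ) :
    (∑ n ∈ range q, (fw A X t n : ℂ) * z ^ n) ^ 2 = ∑ n ∈ range q, (gw A X t n : ℂ) * z ^ n := by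
  rw [← pol_eval A X q (by omega), pow_two, ← map_mul]
  have h1 : (pol A X t * pol A X t).natDegree < q := by
    have := Polynomial.natDegree_mul_le (p := pol A X t) (q := pol A X t)
    have h2 := pol_natDegree A X t
    omega
  rw [Polynomial.aeval_eq_sum_range' h1]
  apply Finset.sum_congr rfl
  intro n _
  rw [pol_sq_coeff, Complex.real_smul]

/-- The master inequality, finite form. -/
theorem master (A : Set ℕ) (X M : ℕ) (hM : 0 < M) (hMX : M ≤ 2 * X + 1) {t : ℝ} (ht0 : 0 ≤ t)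
    (ht1 : t < 1) {B : ℝ} (hB : ∀ n, (rep A n : ℝ) ≤ B) {c : ℝ} (hc : 0 ≤ c) :
    ∑ a ∈ range (X + 1), ind A a * (t ^ 2) ^ a ≤
      Real.sqrt (∑ n ∈ range (X + 1), ((rep A n : ℝ) - c) ^ 2 * (t ^ 2) ^ n +
        B ^ 2 * ∑ n ∈ range (2 * X + 1) \ range (X + 1), (t ^ 2) ^ n) +
      c * (8 * M + 2 / Real.sqrt (M * (1 - t ^ 2))) := by
  classical
  set q := 2 * X + 1 with hq
  have hq0 : q ≠ 0 := by omega
  have hqpos : (0 : ℝ) < q := by positivity
  have hB0 : 0 ≤ B := le_trans (by positivity) (hB 0)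
  set P : ℕ → ℂ := fun k => ∑ n ∈ range q, (fw A X t n : ℂ) * (zt q ^ k) ^ n with hP
  set H : ℕ → ℂ := fun k => ∑ n ∈ range (X + 1), ((t ^ n : ℝ) : ℂ) * (zt q ^ k) ^ n with hH
  set e : ℕ → ℝ := fun n => gw A X t n - c * (if n < X + 1 then t ^ n else 0) with he
  set E : ℕ → ℂ := fun k => ∑ n ∈ range q, (e n : ℂ) * (zt q ^ k) ^ n with hE
  -- Parseval for P
  have h1 : ∑ k ∈ range q, ‖P k‖ ^ 2 = q * ∑ a ∈ range (X + 1), ind A a * (t ^ 2) ^ a := by
    rw [hP]
    rw [parseval hq0 (fun n => fw A X t n)]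
    congr 1
    have : ∀ n ∈ range q, fw A X t n ^ 2 =
        if n ∈ range (X + 1) then ind A n * (t ^ 2) ^ n else 0 := by
      intro n _
      unfold fw
      by_cases h : n < X + 1
      · rw [if_pos h, if_pos (mem_range.2 h), mul_pow, ind_sq, ← pow_mul, ← pow_mul, mul_comm n 2]
      · rw [if_neg h, if_neg (by rw [mem_range]; exact h)]; simp
    rw [Finset.sum_congr rfl this, Finset.sum_ite_mem,
      Finset.inter_eq_right.2 (Finset.range_subset_range.2 (by omega))]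
  -- E = P^2 - c H
  have h2 : ∀ k, E k = P k ^ 2 - c * H k := by
    intro k
    simp only [hE, hP, hH, he]
    rw [sq_eval A X q (by omega) t (zt q ^ k), Finset.mul_sum]
    have e1 : ∑ n ∈ range (X + 1), (c : ℂ) * (((t ^ n : ℝ) : ℂ) * (zt q ^ k) ^ n) =
        ∑ n ∈ range q, (c : ℂ) * (((if n < X + 1 then t ^ n else 0 : ℝ) : ℂ) * (zt q ^ k) ^ n) := by
      have : ∀ n ∈ range q, (c : ℂ) * (((if n < X + 1 then t ^ n else 0 : ℝ) : ℂ) * (zt q ^ k) ^ n) =
          if n ∈ range (X + 1) then (c : ℂ) * (((t ^ n : ℝ) : ℂ) * (zt q ^ k) ^ n) else 0 := by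
        intro n _
        by_cases h : n < X + 1
        · rw [if_pos h, if_pos (mem_range.2 h)]
        · rw [if_neg h, if_neg (by rw [mem_range]; exact h)]; simp
      rw [Finset.sum_congr rfl this, Finset.sum_ite_mem,
        Finset.inter_eq_right.2 (Finset.range_subset_range.2 (by omega))]
    rw [e1, ← Finset.sum_sub_distrib]
    apply Finset.sum_congr rfl
    intro n _
    push_cast
    ring
  -- Parseval for E
  set V : ℝ := ∑ n ∈ range (X + 1), ((rep A n : ℝ) - c) ^ 2 * (t ^ 2) ^ n +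
        B ^ 2 * ∑ n ∈ range q \ range (X + 1), (t ^ 2) ^ n with hV
  have h3 : ∑ k ∈ range q, ‖E k‖ ^ 2 ≤ q * V := by
    rw [hE]
    rw [parseval hq0 e]
    apply mul_le_mul_of_nonneg_left _ hqpos.le
    rw [← Finset.sum_sdiff (Finset.range_subset_range.2 (by omega : X + 1 ≤ q)), add_comm, hV]
    apply add_le_add
    · apply le_of_eq
      apply Finset.sum_congr rfl
      intro n hn
      rw [mem_range] at hn
      simp only [he]
      rw [if_pos hn, gw_eq A X t hn, ← pow_mul, mul_comm 2 n, pow_mul]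
      ring
    · rw [Finset.mul_sum]
      apply Finset.sum_le_sum
      intro n hn
      rw [mem_sdiff, mem_range, mem_range] at hn
      simp only [he]
      rw [if_neg hn.2, mul_zero, sub_zero, ← pow_mul, mul_comm 2 n, pow_mul, ← mul_pow]
      apply pow_le_pow_left₀ (gw_nonneg A X ht0 n)
      refine (gw_le A X ht0 n).trans ?_
      exact mul_le_mul_of_nonneg_right (hB n) (pow_nonneg ht0 _)
  have h4 : ∑ k ∈ range q, ‖E k‖ ≤ q * Real.sqrt V := by
    refine (sum_norm_le (q := q) E (range q) (Finset.Subset.refl _)).trans ?_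
    rw [card_range]
    calc Real.sqrt q * Real.sqrt (∑ k ∈ range q, ‖E k‖ ^ 2)
        ≤ Real.sqrt q * Real.sqrt (q * V) :=
          mul_le_mul_of_nonneg_left (Real.sqrt_le_sqrt h3) (Real.sqrt_nonneg _)
      _ = q * Real.sqrt V := by
          rw [Real.sqrt_mul hqpos.le, ← mul_assoc, Real.mul_self_sqrt hqpos.le]
  have h5 : ∑ k ∈ range q, ‖P k‖ ^ 2 ≤ ∑ k ∈ range q, ‖E k‖ + c * ∑ k ∈ range q, ‖H k‖ := by
    rw [Finset.mul_sum, ← Finset.sum_add_distrib]
    apply Finset.sum_le_sum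
    intro k _
    rw [← norm_pow]
    have : P k ^ 2 = E k + c * H k := by rw [h2 k]; ring
    rw [this]
    refine (norm_add_le _ _).trans ?_
    rw [norm_mul, Complex.norm_real, Real.norm_of_nonneg hc]
  have h6 := geom_L1 hM hMX (by omega : X < q) ht0 ht1
  rw [h1] at h5
  have h7 : (q : ℝ) * ∑ a ∈ range (X + 1), ind A a * (t ^ 2) ^ a ≤
      q * (Real.sqrt V + c * (8 * M + 2 / Real.sqrt (M * (1 - t ^ 2)))) := by
    refine h5.trans ?_
    have : c * ∑ k ∈ range q, ‖H k‖ ≤ c * (q * (8 * M + 2 / Real.sqrt (M * (1 - t ^ 2)))) :=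
      mul_le_mul_of_nonneg_left h6 hc
    calc ∑ k ∈ range q, ‖E k‖ + c * ∑ k ∈ range q, ‖H k‖
        ≤ q * Real.sqrt V + c * (q * (8 * M + 2 / Real.sqrt (M * (1 - t ^ 2)))) :=
          add_le_add h4 this
      _ = _ := by ring
  exact le_of_mul_le_mul_left h7 hqpos

end

end Pool.Agent.L0h74.ET
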