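import Mathlib
import Pool.Agent.L0h74.ET3

set_option autoImplicit false

/-!
The limit form of the master inequality and its consequences, used for `MP_eaae5b_nt`.
-/

namespace Pool.Agent.L0h74.ET

open Finset Filter Topology

noncomputable section

/-- summability of a bounded sequence against a geometric one -/
lemma summ {f : ℕ → ℝ} {C s : ℝ} (hf : ∀ n, |f n| ≤ C) (hs0 : 0 ≤ s) (hs1 : s < 1) :
    Summable (fun n => f n * s ^ n) := by
  have h1 : Summable (fun n => C * s ^ n) := (summable_geometric_of_lt_one hs0 hs1).mul_left C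
  refine Summable.of_norm_bounded h1 (fun n => ?_)
  rw [Real.norm_eq_abs, abs_mul, abs_of_nonneg (pow_nonneg hs0 n)]
  exact mul_le_mul_of_nonneg_right (hf n) (pow_nonneg hs0 n)

lemma ind_abs (A : Set ℕ) (a : ℕ) : |ind A a| ≤ 1 := by
  rw [abs_of_nonneg (ind_nonneg A a)]; exact ind_le_one A a

theorem master_inf (A : Set ℕ) (M : ℕ) (hM : 0 < M) {s : ℝ} (hs0 : 0 ≤ s)
    (hs1 : s < 1) {B : ℝ} (hB : ∀ n, (rep A n : ℝ) ≤ B) {c : ℝ} (hc : 0 ≤ c) :
    ∑' a, ind A a * s ^ a ≤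
      Real.sqrt (∑' n, ((rep A n : ℝ) - c) ^ 2 * s ^ n) +
      c * (8 * M + 2 / Real.sqrt (M * (1 - s))) := by
  have hB0 : 0 ≤ B := le_trans (by positivity) (hB 0)
  set t := Real.sqrt s with ht
  have ht0 : 0 ≤ t := Real.sqrt_nonneg _
  have ht2 : t ^ 2 = s := Real.sq_sqrt hs0
  have ht1 : t < 1 := by
    rw [ht, Real.sqrt_lt' (by norm_num)]; simpa using hs1
  have hsum1 : Summable (fun a => ind A a * s ^ a) := summ (ind_abs A) hs0 hs1
  have hsum2 : Summable (fun n => ((rep A n : ℝ) - c) ^ 2 * s ^ n) := by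
    refine summ (C := (B + c) ^ 2) (fun n => ?_) hs0 hs1
    rw [abs_of_nonneg (sq_nonneg _)]
    apply sq_le_sq'
    · have : (0 : ℝ) ≤ rep A n := by positivity
      linarith
    · have := hB n
      linarith
  have hl : Tendsto (fun X : ℕ => ∑ a ∈ range (X + 1), ind A a * s ^ a) atTop
      (𝓝 (∑' a, ind A a * s ^ a)) :=
    (tendsto_add_atTop_iff_nat (f := fun X : ℕ => ∑ a ∈ range X, ind A a * s ^ a) 1).2
      hsum1.hasSum.tendsto_sum_nat
  have hr1 : Tendsto (fun X : ℕ => ∑ n ∈ range (X + 1), ((rep A n : ℝ) - c) ^ 2 * s ^ n) atTop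
      (𝓝 (∑' n, ((rep A n : ℝ) - c) ^ 2 * s ^ n)) :=
    (tendsto_add_atTop_iff_nat
      (f := fun X : ℕ => ∑ n ∈ range X, ((rep A n : ℝ) - c) ^ 2 * s ^ n) 1).2
      hsum2.hasSum.tendsto_sum_nat
  have hgeo : Summable (fun n : ℕ => s ^ n) := summable_geometric_of_lt_one hs0 hs1
  have hr2 : Tendsto (fun X : ℕ => ∑ n ∈ range (2 * X + 1) \ range (X + 1), s ^ n) atTop
      (𝓝 0) := by
    have e1 : ∀ X : ℕ, ∑ n ∈ range (2 * X + 1) \ range (X + 1), s ^ n =
        ∑ n ∈ range (2 * X + 1), s ^ n - ∑ n ∈ range (X + 1), s ^ n := by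
      intro X
      have := Finset.sum_sdiff (f := fun n => s ^ n)
        (Finset.range_subset_range.2 (by omega : X + 1 ≤ 2 * X + 1))
      linarith
    simp only [e1]
    have h1 : Tendsto (fun X : ℕ => ∑ n ∈ range (2 * X + 1), s ^ n) atTop (𝓝 (∑' n, s ^ n)) := by
      refine hgeo.hasSum.tendsto_sum_nat.comp ?_
      exact tendsto_atTop_mono (fun X => by simp only [id]; omega) tendsto_id
    have h2 : Tendsto (fun X : ℕ => ∑ n ∈ range (X + 1), s ^ n) atTop (𝓝 (∑' n, s ^ n)) := by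
      refine hgeo.hasSum.tendsto_sum_nat.comp ?_
      exact tendsto_atTop_mono (fun X => by simp only [id]; omega) tendsto_id
    have := h1.sub h2
    simpa using this
  have hr : Tendsto (fun X : ℕ => Real.sqrt (∑ n ∈ range (X + 1), ((rep A n : ℝ) - c) ^ 2 * s ^ n +
        B ^ 2 * ∑ n ∈ range (2 * X + 1) \ range (X + 1), s ^ n) +
      c * (8 * M + 2 / Real.sqrt (M * (1 - s)))) atTop
      (𝓝 (Real.sqrt (∑' n, ((rep A n : ℝ) - c) ^ 2 * s ^ n) +
      c * (8 * M + 2 / Real.sqrt (M * (1 - s))))) := by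
    refine Tendsto.add ?_ tendsto_const_nhds
    refine (Real.continuous_sqrt.tendsto _).comp ?_
    have := hr1.add (hr2.const_mul (B ^ 2))
    simpa using this
  refine le_of_tendsto_of_tendsto hl hr ?_
  filter_upwards [eventually_ge_atTop M] with X hX
  have := master A X M hM (by omega) ht0 ht1 hB hc
  rw [ht2] at this
  exact this

/-- the Cauchy square -/
lemma cauchy_sq (A : Set ℕ) {s : ℝ} (hs0 : 0 ≤ s) (hs1 : s < 1) :
    (∑' a, ind A a * s ^ a) ^ 2 = ∑' n, (rep A n : ℝ) * s ^ n := by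
  have h1 : Summable (fun a => ‖ind A a * s ^ a‖) := (summ (ind_abs A) hs0 hs1).norm
  rw [pow_two, tsum_mul_tsum_eq_tsum_sum_antidiagonal_of_summable_norm h1 h1]
  apply tsum_congr
  intro n
  rw [rep_eq, Finset.sum_mul]
  apply Finset.sum_congr rfl
  intro p hp
  rw [HasAntidiagonal.mem_antidiagonal] at hp
  rw [← hp, pow_add]
  ring

/-- Abel average -/
def av (s : ℝ) (f : ℕ → ℝ) : ℝ := (1 - s) * ∑' n, f n * s ^ n

lemma av_const {s : ℝ} (hs0 : 0 ≤ s) (hs1 : s < 1) (C : ℝ) : av s (fun _ => C) = C := by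
  unfold av
  rw [tsum_mul_left, tsum_geometric_of_lt_one hs0 hs1]
  have : 1 - s ≠ 0 := by linarith
  field_simp

lemma av_mono {s : ℝ} (hs0 : 0 ≤ s) (hs1 : s < 1) {f g : ℕ → ℝ} {C D : ℝ}
    (hf : ∀ n, |f n| ≤ C) (hg : ∀ n, |g n| ≤ D) (h : ∀ n, f n ≤ g n) : av s f ≤ av s g := by
  unfold av
  apply mul_le_mul_of_nonneg_left _ (by linarith)
  exact Summable.tsum_le_tsum (fun n => mul_le_mul_of_nonneg_right (h n) (pow_nonneg hs0 n))
    (summ hf hs0 hs1) (summ hg hs0 hs1)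

lemma av_add {s : ℝ} (hs0 : 0 ≤ s) (hs1 : s < 1) {f g : ℕ → ℝ} {C D : ℝ}
    (hf : ∀ n, |f n| ≤ C) (hg : ∀ n, |g n| ≤ D) :
    av s (fun n => f n + g n) = av s f + av s g := by
  unfold av
  rw [← mul_add, ← (summ hf hs0 hs1).tsum_add (summ hg hs0 hs1)]
  congr 1
  apply tsum_congr
  intro n
  ring

lemma av_smul {s : ℝ} {f : ℕ → ℝ} (C : ℝ) :
    av s (fun n => C * f n) = C * av s f := by
  unfold av
  have : ∀ n, C * f n * s ^ n = C * (f n * s ^ n) := fun n => by ring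
  simp only [this]
  rw [tsum_mul_left]
  ring

/-- variance lower bound -/
theorem var_lower (A : Set ℕ) (M : ℕ) (hM : 0 < M) {s : ℝ} (hs0 : 0 ≤ s)
    (hs1 : s < 1) {B : ℝ} (hB1 : 1 ≤ B) (hB : ∀ n, (rep A n : ℝ) ≤ B) :
    av s (fun n => (rep A n : ℝ)) - 2 * B ^ 2 * (8 * M * Real.sqrt (1 - s) + 2 / Real.sqrt M) ≤
      av s (fun n => (rep A n : ℝ) ^ 2) - av s (fun n => (rep A n : ℝ)) ^ 2 := by
  have hr0 : ∀ n, (0 : ℝ) ≤ rep A n := fun n => by positivity
  have hrabs : ∀ n, |(rep A n : ℝ)| ≤ B := fun n => by rw [abs_of_nonneg (hr0 n)]; exact hB n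
  have hr2abs : ∀ n, |(rep A n : ℝ) ^ 2| ≤ B ^ 2 := fun n => by
    rw [abs_of_nonneg (sq_nonneg _)]
    exact pow_le_pow_left₀ (hr0 n) (hB n) 2
  set μ := av s (fun n => (rep A n : ℝ)) with hμ
  set W := av s (fun n => (rep A n : ℝ) ^ 2) with hW
  have h1s : 0 < 1 - s := by linarith
  have hμ0 : 0 ≤ μ := by
    rw [hμ]; unfold av
    exact mul_nonneg h1s.le (tsum_nonneg (fun n => mul_nonneg (hr0 n) (pow_nonneg hs0 n)))
  have hμB : μ ≤ B := by
    have := av_mono hs0 hs1 hrabs (g := fun _ => B) (D := B)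
      (fun n => by rw [abs_of_nonneg (by linarith)]) hB
    rwa [av_const hs0 hs1] at this
  set a := ∑' a, ind A a * s ^ a with ha
  have ha0 : 0 ≤ a := tsum_nonneg (fun n => mul_nonneg (ind_nonneg A n) (pow_nonneg hs0 n))
  have ha2 : (1 - s) * a ^ 2 = μ := by
    rw [ha, cauchy_sq A hs0 hs1]
    rfl
  -- the variance
  have hvar : (1 - s) * ∑' n, ((rep A n : ℝ) - μ) ^ 2 * s ^ n = W - μ ^ 2 := by
    have e1 : (1 - s) * ∑' n, ((rep A n : ℝ) - μ) ^ 2 * s ^ n =
        av s (fun n => (rep A n : ℝ) ^ 2 + ((-2 * μ) * (rep A n : ℝ) + μ ^ 2)) := by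
      unfold av
      congr 1
      apply tsum_congr
      intro n
      ring
    rw [e1, av_add hs0 hs1 hr2abs (D := |-2 * μ| * B + |μ ^ 2|), av_add hs0 hs1 (C := |-2 * μ| * B)
      (D := |μ ^ 2|), av_smul, av_const hs0 hs1]
    · rw [← hμ]; ring
    · intro n
      rw [abs_mul]
      exact mul_le_mul_of_nonneg_left (hrabs n) (abs_nonneg _)
    · intro n
      exact le_rfl
    · intro n
      refine (abs_add_le _ _).trans ?_
      rw [abs_mul]
      have := mul_le_mul_of_nonneg_left (hrabs n) (abs_nonneg (-2 * μ))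
      linarith
  set V := ∑' n, ((rep A n : ℝ) - μ) ^ 2 * s ^ n with hV
  have hV0 : 0 ≤ V := tsum_nonneg (fun n => mul_nonneg (sq_nonneg _) (pow_nonneg hs0 n))
  have hm := master_inf A M hM hs0 hs1 hB hμ0
  rw [← ha, ← hV] at hm
  set δ := 8 * M * Real.sqrt (1 - s) + 2 / Real.sqrt M with hδ
  have hδ0 : 0 ≤ δ := by positivity
  have hsq : 0 < Real.sqrt (1 - s) := Real.sqrt_pos.2 h1s
  have hss : Real.sqrt (1 - s) * Real.sqrt (1 - s) = 1 - s := Real.mul_self_sqrt h1s.le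
  -- multiply by sqrt (1-s)
  have h2 : Real.sqrt (1 - s) * a ≤ Real.sqrt ((1 - s) * V) + μ * δ := by
    have h3 := mul_le_mul_of_nonneg_left hm hsq.le
    have h4 : Real.sqrt (1 - s) * (Real.sqrt V + μ * (8 * M + 2 / Real.sqrt (M * (1 - s)))) =
        Real.sqrt ((1 - s) * V) + μ * δ := by
      rw [Real.sqrt_mul h1s.le, hδ, Real.sqrt_mul (by positivity : (0 : ℝ) ≤ M)]
      have : Real.sqrt M ≠ 0 := by
        have : (0 : ℝ) < M := by exact_mod_cast hM
        positivity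
      field_simp
    linarith
  have h5 : (Real.sqrt (1 - s) * a) ^ 2 = μ := by
    rw [mul_pow, Real.sq_sqrt h1s.le, ha2]
  have h6 : Real.sqrt ((1 - s) * V) ^ 2 = W - μ ^ 2 := by
    rw [Real.sq_sqrt (mul_nonneg h1s.le hV0), hvar]
  set x := Real.sqrt (1 - s) * a with hx
  set y := Real.sqrt ((1 - s) * V) with hy
  have hx0 : 0 ≤ x := mul_nonneg hsq.le ha0
  have hy0 : 0 ≤ y := Real.sqrt_nonneg _
  have hxB : x ≤ B := by
    have : x ^ 2 ≤ B ^ 2 := by
      rw [h5]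
      nlinarith
    exact le_of_sq_le_sq this (by linarith)
  rw [← h6, ← h5]
  have h7 : x ≤ y + B * δ := h2.trans (by
    have := mul_le_mul_of_nonneg_right hμB hδ0
    linarith)
  have h8 : 0 ≤ B * δ := mul_nonneg (by linarith) hδ0
  by_cases h9 : x ≤ B * δ
  · have h10 : x ^ 2 ≤ x * (B * δ) := by nlinarith
    have h11 : x * (B * δ) ≤ B * (B * δ) := mul_le_mul_of_nonneg_right hxB h8
    nlinarith [sq_nonneg y]
  · rw [not_le] at h9
    have h10 : (x - B * δ) ^ 2 ≤ y ^ 2 := pow_le_pow_left₀ (by linarith) (by linarith) 2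
    have h11 : x * (B * δ) ≤ B * (B * δ) := mul_le_mul_of_nonneg_right hxB h8
    nlinarith [sq_nonneg (B * δ)]

end

end Pool.Agent.L0h74.ET
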