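import Mathlib
import Pool.Agent.L0h74.ET4

set_option autoImplicit false

/-!
Final argument for `MP_eaae5b_nt`.
-/

namespace Pool.Agent.L0h74.ET

open Finset Filter Topology

noncomputable section

/-- off `2A` the number of representations is even -/
lemma even_rep (A : Set ℕ) (n : ℕ) (h : ∀ a ∈ A, n ≠ 2 * a) : Even (rep A n) := by
  classical
  have h0 : ∑ p ∈ (antidiagonal n).filter (fun p => p.1 ∈ A ∧ p.2 ∈ A), (1 : ZMod 2) = 0 := by
    refine Finset.sum_involution (fun p _ => p.swap) ?_ ?_ ?_ ?_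
    · intro p _
      decide
    · intro p hp _ heq
      rw [mem_filter, HasAntidiagonal.mem_antidiagonal] at hp
      have : p.1 = p.2 := by
        have := congrArg Prod.snd heq
        simpa using this
      exact h p.1 hp.2.1 (by omega)
    · intro p hp
      rw [mem_filter, HasAntidiagonal.mem_antidiagonal] at hp ⊢
      refine ⟨?_, hp.2.2, hp.2.1⟩
      simp only [Prod.fst_swap, Prod.snd_swap]
      omega
    · intro p _
      simp
  rw [Finset.sum_const, nsmul_eq_mul, mul_one] at h0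
  unfold rep
  exact (ZMod.natCast_eq_zero_iff_even).1 h0

open Classical in
/-- indicator of `{r ≥ k}` -/
def Zi (A : Set ℕ) (k n : ℕ) : ℝ := if k ≤ rep A n then 1 else 0

open Classical in
/-- indicator of `2A` -/
def Di (A : Set ℕ) (n : ℕ) : ℝ := if ∃ a ∈ A, n = 2 * a then 1 else 0

/-- indicator of `n < n0` -/
def Li (n0 n : ℕ) : ℝ := if n < n0 then 1 else 0

lemma Zi_abs (A : Set ℕ) (k n : ℕ) : |Zi A k n| ≤ 1 := by unfold Zi; split <;> norm_num
lemma Di_abs (A : Set ℕ) (n : ℕ) : |Di A n| ≤ 1 := by unfold Di; split <;> norm_num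
lemma Li_abs (n0 n : ℕ) : |Li n0 n| ≤ 1 := by unfold Li; split <;> norm_num
lemma Zi_nn (A : Set ℕ) (k n : ℕ) : 0 ≤ Zi A k n := by unfold Zi; split <;> norm_num
lemma Di_nn (A : Set ℕ) (n : ℕ) : 0 ≤ Di A n := by unfold Di; split <;> norm_num
lemma Li_nn (n0 n : ℕ) : 0 ≤ Li n0 n := by unfold Li; split <;> norm_num

lemma av_Li (n0 : ℕ) {s : ℝ} (hs0 : 0 ≤ s) (hs1 : s < 1) : av s (Li n0) ≤ (1 - s) * n0 := by
  unfold av
  apply mul_le_mul_of_nonneg_left _ (by linarith)
  rw [tsum_eq_sum (s := range n0)]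
  · calc ∑ b ∈ range n0, Li n0 b * s ^ b ≤ ∑ b ∈ range n0, (1 : ℝ) := by
          apply Finset.sum_le_sum
          intro b _
          have h1 : Li n0 b ≤ 1 := (le_abs_self _).trans (Li_abs n0 b)
          have h2 : s ^ b ≤ 1 := pow_le_one₀ hs0 hs1.le
          have h3 : 0 ≤ s ^ b := pow_nonneg hs0 b
          nlinarith [Li_nn n0 b]
      _ = n0 := by simp
  · intro b hb
    rw [mem_range] at hb
    unfold Li
    rw [if_neg hb, zero_mul]

lemma av_Di (A : Set ℕ) {s : ℝ} (hs0 : 0 ≤ s) (hs1 : s < 1) {B : ℝ} (hB1 : 1 ≤ B)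
    (hB : ∀ n, (rep A n : ℝ) ≤ B) : av s (Di A) ≤ B * Real.sqrt (1 - s) := by
  have h1s : 0 < 1 - s := by linarith
  have hr0 : ∀ n, (0 : ℝ) ≤ rep A n := fun n => by positivity
  have hrabs : ∀ n, |(rep A n : ℝ)| ≤ B := fun n => by rw [abs_of_nonneg (hr0 n)]; exact hB n
  set a := ∑' a, ind A a * s ^ a with ha
  have ha0 : 0 ≤ a := tsum_nonneg (fun n => mul_nonneg (ind_nonneg A n) (pow_nonneg hs0 n))
  have ha2 : (1 - s) * a ^ 2 ≤ B := by
    rw [ha, cauchy_sq A hs0 hs1]
    have := av_mono hs0 hs1 hrabs (g := fun _ => B) (D := B)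
      (fun n => by rw [abs_of_nonneg (by linarith)]) hB
    rwa [av_const hs0 hs1] at this
  have h1 : ∑' n, Di A n * s ^ n ≤ a := by
    have hinj : Function.Injective (fun n : ℕ => 2 * n) := fun x y h => by
      simp only at h; omega
    have hsupp : Function.support (fun n => Di A n * s ^ n) ⊆ Set.range (fun n : ℕ => 2 * n) := by
      intro n hn
      rw [Function.mem_support] at hn
      by_contra hne
      apply hn
      have : Di A n = 0 := by
        unfold Di
        rw [if_neg]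
        rintro ⟨a, _, rfl⟩
        exact hne ⟨a, rfl⟩
      rw [this, zero_mul]
    rw [← hinj.tsum_eq hsupp, ha]
    have hs2 : Summable (fun n => Di A n * s ^ n) := summ (Di_abs A) hs0 hs1
    refine Summable.tsum_le_tsum (fun n => ?_) (hs2.comp_injective hinj)
      (summ (ind_abs A) hs0 hs1)
    have e1 : Di A (2 * n) = ind A n := by
      unfold Di ind
      by_cases h : n ∈ A
      · rw [if_pos h, if_pos ⟨n, h, rfl⟩]
      · rw [if_neg h, if_neg]
        rintro ⟨b, hb, hb2⟩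
        apply h
        have : n = b := by omega
        rwa [this]
    rw [e1]
    apply mul_le_mul_of_nonneg_left _ (ind_nonneg A n)
    exact pow_le_pow_of_le_one hs0 hs1.le (by omega)
  have h2 : av s (Di A) ≤ (1 - s) * a := mul_le_mul_of_nonneg_left h1 h1s.le
  refine h2.trans ?_
  have h3 : ((1 - s) * a) ^ 2 ≤ (B * Real.sqrt (1 - s)) ^ 2 := by
    rw [mul_pow B, Real.sq_sqrt h1s.le]
    have h4 : ((1 - s) * a) ^ 2 = (1 - s) * ((1 - s) * a ^ 2) := by ring
    rw [h4, mul_comm (B ^ 2)]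
    apply mul_le_mul_of_nonneg_left _ h1s.le
    nlinarith
  exact le_of_sq_le_sq h3 (by positivity)

open Classical in
lemma av_Zi (A : Set ℕ) (k N : ℕ) {s : ℝ} (hs0 : 0 ≤ s) (hs1 : s < 1) :
    av s (Zi A k) ≤ (1 - s) * (((range N).filter (fun n => k ≤ rep A n)).card : ℝ) + s ^ N := by
  have h1s : 0 < 1 - s := by linarith
  have hs : Summable (fun n => Zi A k n * s ^ n) := summ (Zi_abs A k) hs0 hs1
  unfold av
  rw [← hs.sum_add_tsum_nat_add N, mul_add]
  apply add_le_add
  · apply mul_le_mul_of_nonneg_left _ h1s.le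
    rw [Finset.card_filter]
    push_cast
    apply Finset.sum_le_sum
    intro n _
    unfold Zi
    split
    · rw [one_mul]; exact pow_le_one₀ hs0 hs1.le
    · simp
  · have h1 : ∑' i, Zi A k (i + N) * s ^ (i + N) ≤ ∑' i, s ^ N * s ^ i := by
      refine Summable.tsum_le_tsum (fun n => ?_) ((summable_nat_add_iff N).2 hs)
        ((summable_geometric_of_lt_one hs0 hs1).mul_left _)
      rw [pow_add, mul_comm (s ^ n) (s ^ N)]
      have h1 : Zi A k (n + N) ≤ 1 := (le_abs_self _).trans (Zi_abs A k _)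
      have h2 : 0 ≤ s ^ N * s ^ n := by positivity
      nlinarith
    rw [tsum_mul_left, tsum_geometric_of_lt_one hs0 hs1] at h1
    calc (1 - s) * ∑' i, Zi A k (i + N) * s ^ (i + N) ≤ (1 - s) * (s ^ N * (1 - s)⁻¹) :=
          mul_le_mul_of_nonneg_left h1 h1s.le
      _ = s ^ N := by field_simp

/-- the main inequality -/
theorem main_ineq (A : Set ℕ) (m K n0 M : ℕ) (hM : 0 < M) (hK : Even K)
    (hm : ∀ n, n0 ≤ n → m ≤ rep A n) {s : ℝ} (hs0 : 0 ≤ s)
    (hs1 : s < 1) {B : ℝ} (hB1 : 1 ≤ B) (hB : ∀ n, (rep A n : ℝ) ≤ B) :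
    4 * (m : ℝ) - ((K : ℝ) - m - 1) ^ 2 ≤
      4 * (2 * B ^ 2 * (8 * M * Real.sqrt (1 - s) + 2 / Real.sqrt M) +
        (B ^ 2 + m * K) * (av s (Li n0) + av s (Di A) + av s (Zi A (K + 2)))) := by
  have hr0 : ∀ n, (0 : ℝ) ≤ rep A n := fun n => by positivity
  have hrabs : ∀ n, |(rep A n : ℝ)| ≤ B := fun n => by rw [abs_of_nonneg (hr0 n)]; exact hB n
  have hr2abs : ∀ n, |(rep A n : ℝ) ^ 2| ≤ B ^ 2 := fun n => by
    rw [abs_of_nonneg (sq_nonneg _)]
    exact pow_le_pow_left₀ (hr0 n) (hB n) 2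
  have hv := var_lower A M hM hs0 hs1 hB1 hB
  set μ := av s (fun n => (rep A n : ℝ)) with hμ
  set W := av s (fun n => (rep A n : ℝ) ^ 2) with hW
  set D : ℝ := B ^ 2 + m * K with hD
  have hD0 : 0 ≤ D := by positivity
  have hmK : (0 : ℝ) ≤ m * K := by positivity
  -- pointwise inequality
  have hpt : ∀ n, (rep A n : ℝ) ^ 2 ≤
      ((m + K : ℝ) * rep A n + -(m * K : ℝ)) + (D * Li n0 n + (D * Di A n + D * Zi A (K + 2) n)) := by
    intro n
    have hL := mul_nonneg hD0 (Li_nn n0 n)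
    have hDi := mul_nonneg hD0 (Di_nn A n)
    have hZ := mul_nonneg hD0 (Zi_nn A (K + 2) n)
    have hbig : (rep A n : ℝ) ^ 2 ≤ B ^ 2 := pow_le_pow_left₀ (hr0 n) (hB n) 2
    have hpos : 0 ≤ (m + K : ℝ) * rep A n := by positivity
    by_cases h1 : n < n0
    · have : Li n0 n = 1 := by unfold Li; rw [if_pos h1]
      rw [this] at hL ⊢
      linarith
    by_cases h2 : ∃ a ∈ A, n = 2 * a
    · have : Di A n = 1 := by unfold Di; rw [if_pos h2]
      rw [this] at hDi ⊢
      linarith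
    by_cases h3 : K + 2 ≤ rep A n
    · have : Zi A (K + 2) n = 1 := by unfold Zi; rw [if_pos h3]
      rw [this] at hZ ⊢
      linarith
    have h4 : m ≤ rep A n := hm n (by omega)
    have h5 : Even (rep A n) := by
      apply even_rep
      intro a ha hn
      exact h2 ⟨a, ha, hn⟩
    have h6 : rep A n ≤ K := by
      obtain ⟨u, hu⟩ := h5
      obtain ⟨v, hv⟩ := hK
      omega
    have h4' : (m : ℝ) ≤ rep A n := by exact_mod_cast h4
    have h6' : (rep A n : ℝ) ≤ K := by exact_mod_cast h6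
    nlinarith [mul_nonneg (sub_nonneg.2 h4') (sub_nonneg.2 h6')]
  have hW2 : W ≤ ((m + K : ℝ) * μ + -(m * K : ℝ)) +
      (D * av s (Li n0) + (D * av s (Di A) + D * av s (Zi A (K + 2)))) := by
    have b1 : ∀ n, |(m + K : ℝ) * rep A n| ≤ (m + K : ℝ) * B := fun n => by
      rw [abs_mul, abs_of_nonneg (by positivity : (0 : ℝ) ≤ m + K)]
      exact mul_le_mul_of_nonneg_left (hrabs n) (by positivity)
    have b2 : ∀ n : ℕ, |-(m * K : ℝ)| ≤ (m * K : ℝ) := fun n => by
      rw [abs_neg, abs_of_nonneg hmK]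
    have b3 : ∀ n, |D * Li n0 n| ≤ D := fun n => by
      rw [abs_mul, abs_of_nonneg hD0]
      have := mul_le_mul_of_nonneg_left (Li_abs n0 n) hD0
      linarith
    have b4 : ∀ n, |D * Di A n| ≤ D := fun n => by
      rw [abs_mul, abs_of_nonneg hD0]
      have := mul_le_mul_of_nonneg_left (Di_abs A n) hD0
      linarith
    have b5 : ∀ n, |D * Zi A (K + 2) n| ≤ D := fun n => by
      rw [abs_mul, abs_of_nonneg hD0]
      have := mul_le_mul_of_nonneg_left (Zi_abs A (K + 2) n) hD0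
      linarith
    have b12 : ∀ n, |(m + K : ℝ) * rep A n + -(m * K : ℝ)| ≤ (m + K : ℝ) * B + m * K :=
      fun n => (abs_add_le _ _).trans (add_le_add (b1 n) (b2 n))
    have b45 : ∀ n, |D * Di A n + D * Zi A (K + 2) n| ≤ D + D :=
      fun n => (abs_add_le _ _).trans (add_le_add (b4 n) (b5 n))
    have b345 : ∀ n, |D * Li n0 n + (D * Di A n + D * Zi A (K + 2) n)| ≤ D + (D + D) :=
      fun n => (abs_add_le _ _).trans (add_le_add (b3 n) (b45 n))
    have ball : ∀ n, |((m + K : ℝ) * rep A n + -(m * K : ℝ)) +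
        (D * Li n0 n + (D * Di A n + D * Zi A (K + 2) n))| ≤
        ((m + K : ℝ) * B + m * K) + (D + (D + D)) :=
      fun n => (abs_add_le _ _).trans (add_le_add (b12 n) (b345 n))
    have h1 := av_mono hs0 hs1 hr2abs ball hpt
    rw [av_add hs0 hs1 b12 b345, av_add hs0 hs1 b1 b2, av_add hs0 hs1 b3 b45,
      av_add hs0 hs1 b4 b5, av_smul, av_const hs0 hs1, av_smul, av_smul, av_smul] at h1
    exact h1
  nlinarith [sq_nonneg (2 * μ - (m + K - 1))]

end

end Pool.Agent.L0h74.ET
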