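import Mathlib
import Pool.Agent.L0h74.ET5

set_option autoImplicit false

/-!
Density form for `MP_eaae5b_nt`.
-/

namespace Pool.Agent.L0h74.ET

open Finset Filter Topology

noncomputable section

open Classical in
theorem dens (A : Set ℕ) (m K n0 : ℕ) (hK : Even K) (hγ : ((K : ℝ) - m - 1) ^ 2 < 4 * m)
    (hm : ∀ n, n0 ≤ n → m ≤ rep A n) (B0 : ℕ) (hB0 : ∀ n, rep A n ≤ B0) :
    ∃ N0 : ℕ, ∀ N, N0 ≤ N →
      (4 * (m : ℝ) - ((K : ℝ) - m - 1) ^ 2) / (32 * (((B0 : ℝ) + 1) ^ 2 + m * K) *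
        Real.log (32 * (((B0 : ℝ) + 1) ^ 2 + m * K) / (4 * (m : ℝ) - ((K : ℝ) - m - 1) ^ 2))) * N ≤
      (((range N).filter (fun n => K + 2 ≤ rep A n)).card : ℝ) := by
  by_contra hcon
  push Not at hcon
  set B : ℝ := B0 + 1 with hBdef
  have hB1 : 1 ≤ B := by
    have : (0 : ℝ) ≤ B0 := by positivity
    linarith
  have hB : ∀ n, (rep A n : ℝ) ≤ B := fun n => by
    have : (rep A n : ℝ) ≤ B0 := by exact_mod_cast hB0 n
    linarith
  set γ : ℝ := 4 * (m : ℝ) - ((K : ℝ) - m - 1) ^ 2 with hγdef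
  have hγ0 : 0 < γ := by linarith
  set D : ℝ := B ^ 2 + m * K with hD
  have hD0 : 0 < D := by positivity
  -- choice of M
  obtain ⟨M, hM0, hM⟩ : ∃ M : ℕ, 0 < M ∧ 16 * B ^ 2 * (1 / Real.sqrt M) ≤ γ / 8 := by
    have h1 : Tendsto (fun M : ℕ => 16 * B ^ 2 * (1 / Real.sqrt M)) atTop (𝓝 (16 * B ^ 2 * 0)) := by
      refine Tendsto.const_mul _ ?_
      have h2 : Tendsto (fun M : ℕ => Real.sqrt M) atTop atTop :=
        Real.tendsto_sqrt_atTop.comp tendsto_natCast_atTop_atTop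
      have h3 : Tendsto (fun M : ℕ => (Real.sqrt M)⁻¹) atTop (𝓝 0) := h2.inv_tendsto_atTop
      simpa only [one_div] using h3
    rw [mul_zero] at h1
    have h2 : ∀ᶠ M : ℕ in atTop, 16 * B ^ 2 * (1 / Real.sqrt M) < γ / 8 :=
      h1.eventually (gt_mem_nhds (by positivity))
    obtain ⟨M, h3, h4⟩ := (h2.and (eventually_gt_atTop 0)).exists
    exact ⟨M, h4, h3.le⟩
  -- choice of L
  have hmB : (m : ℝ) ≤ B := (by exact_mod_cast hm n0 le_rfl : (m : ℝ) ≤ rep A n0).trans (hB n0)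
  have hγD : γ ≤ 4 * D := by
    have h1 : γ ≤ 4 * m := by
      have := sq_nonneg ((K : ℝ) - m - 1)
      linarith
    have h2 : (0 : ℝ) ≤ m * K := by positivity
    nlinarith
  set L : ℝ := Real.log (32 * D / γ) with hLdef
  have hL1 : 1 < 32 * D / γ := by
    rw [one_lt_div hγ0]; linarith
  have hL0 : 0 < L := Real.log_pos hL1
  have hL : 4 * D * Real.exp (-L) ≤ γ / 8 := by
    rw [Real.exp_neg, hLdef, Real.exp_log (by positivity)]
    apply le_of_eq
    field_simp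
    norm_num
  -- choice of c
  set c : ℝ := γ / (32 * D * L) with hc
  have hc0 : 0 < c := by positivity
  -- choice of N0
  have hT : Tendsto (fun N : ℕ => 64 * B ^ 2 * M * Real.sqrt (L / N) +
      4 * D * (n0 * (L / N) + B * Real.sqrt (L / N))) atTop (𝓝 0) := by
    have h1 : Tendsto (fun N : ℕ => L / (N : ℝ)) atTop (𝓝 0) :=
      tendsto_const_div_atTop_nhds_zero_nat L
    have h2 : Tendsto (fun N : ℕ => Real.sqrt (L / N)) atTop (𝓝 0) := by
      have h2' := (Real.continuous_sqrt.tendsto 0).comp h1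
      rw [Real.sqrt_zero] at h2'
      exact h2'
    have h3 := (h2.const_mul (64 * B ^ 2 * M)).add
      (((h1.const_mul (n0 : ℝ)).add (h2.const_mul B)).const_mul (4 * D))
    simpa using h3
  have hT2 : ∀ᶠ N : ℕ in atTop, 64 * B ^ 2 * M * Real.sqrt (L / N) +
      4 * D * (n0 * (L / N) + B * Real.sqrt (L / N)) < γ / 8 :=
    hT.eventually (gt_mem_nhds (by positivity))
  have hLN : ∀ᶠ N : ℕ in atTop, L < N :=
    (tendsto_natCast_atTop_atTop (R := ℝ)).eventually (eventually_gt_atTop L)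
  obtain ⟨N0, hN0⟩ := eventually_atTop.1 (hT2.and hLN)
  obtain ⟨N, hNN, hNc⟩ := hcon N0
  obtain ⟨h1, h2⟩ := hN0 N hNN
  have hN : (0 : ℝ) < N := hL0.trans h2
  set ε : ℝ := L / N with hε
  have hε0 : 0 < ε := by positivity
  have hε1 : ε < 1 := by rw [hε, div_lt_one hN]; exact h2
  set s : ℝ := 1 - ε with hs
  have hs0 : 0 ≤ s := by linarith
  have hs1 : s < 1 := by linarith
  have hse : 1 - s = ε := by rw [hs]; ring
  have hmain := main_ineq A m K n0 M hM0 hK hm hs0 hs1 hB1 hB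
  have a1 := av_Li n0 hs0 hs1
  have a2 := av_Di A hs0 hs1 hB1 hB
  have a3 := av_Zi A (K + 2) N hs0 hs1
  rw [← hγdef, ← hD] at hmain
  rw [hse] at hmain a1 a2 a3
  have a4 : s ^ N ≤ Real.exp (-L) := by
    have := Real.one_sub_div_pow_le_exp_neg (n := N) (t := L) h2.le
    exact this
  have a5 : ε * (((range N).filter (fun n => K + 2 ≤ rep A n)).card : ℝ) ≤ L * c := by
    have : ε * (((range N).filter (fun n => K + 2 ≤ rep A n)).card : ℝ) ≤ ε * (c * N) :=
      mul_le_mul_of_nonneg_left hNc.le hε0.le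
    have e : ε * (c * N) = L * c := by rw [hε]; field_simp
    linarith
  have a6 : 4 * D * (L * c) = γ / 8 := by
    rw [hc]; field_simp; ring
  have a7 : av s (Li n0) + av s (Di A) + av s (Zi A (K + 2)) ≤
      (n0 * ε + B * Real.sqrt ε) + (L * c + Real.exp (-L)) := by
    have : ε * (n0 : ℝ) = n0 * ε := mul_comm _ _
    linarith
  have a8 := mul_le_mul_of_nonneg_left a7 hD0.le
  have a9 : 4 * (2 * B ^ 2 * (8 * M * Real.sqrt ε + 2 / Real.sqrt M)) =
      64 * B ^ 2 * M * Real.sqrt ε + 16 * B ^ 2 * (1 / Real.sqrt M) := by ring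
  have a10 : 4 * D * (n0 * ε + B * Real.sqrt ε) + 4 * D * (L * c + Real.exp (-L)) =
      4 * (D * ((n0 * ε + B * Real.sqrt ε) + (L * c + Real.exp (-L)))) := by ring
  have a11 : 4 * D * (L * c + Real.exp (-L)) = 4 * D * (L * c) + 4 * D * Real.exp (-L) := by ring
  linarith

end

end Pool.Agent.L0h74.ET
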